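import Pool.Agent.W172.WL.Stm

/-!
Project WL: characteristic function of a weighted sum of independent uniform variables
(`char : S_CHAR`).
-/

set_option autoImplicit false

namespace Pool.Agent.W509.WL

open MeasureTheory Set Pool.Agent.W172.WL Filter Topology
open scoped ENNReal NNReal

lemma norm_fac_le_one (s : ℝ) :
    ‖∫ x : unitInterval, Complex.exp (Complex.I * ((s * (x : ℝ) : ℝ) : ℂ))‖ ≤ 1 := by
  refine (norm_integral_le_of_norm_le_const (C := 1) (Eventually.of_forall fun x => ?_)).trans ?_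
  · rw [mul_comm, Complex.norm_exp_ofReal_mul_I]
  · simp

lemma norm_fac_le {s : ℝ} (hs : s ≠ 0) :
    ‖∫ x : unitInterval, Complex.exp (Complex.I * ((s * (x : ℝ) : ℝ) : ℂ))‖ ≤ 2 / |s| := by
  have h1 : ∫ x : unitInterval, Complex.exp (Complex.I * ((s * (x : ℝ) : ℝ) : ℂ)) =
      ∫ x in (0 : ℝ)..1, Complex.exp ((Complex.I * s) * x) := by
    rw [intervalIntegral.integral_of_le zero_le_one, ← integral_Icc_eq_integral_Ioc]
    have := integral_subtype_comap (μ := (volume : Measure ℝ)) (s := Icc (0 : ℝ) 1)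
      measurableSet_Icc (fun x : ℝ => Complex.exp ((Complex.I * s) * x))
    rw [← this]
    refine integral_congr_ae (Eventually.of_forall fun x => ?_)
    show _ = _
    simp only
    congr 1
    push_cast
    ring
  have hc : Complex.I * (s : ℂ) ≠ 0 := mul_ne_zero Complex.I_ne_zero (by exact_mod_cast hs)
  rw [h1, integral_exp_mul_complex hc, norm_div, norm_mul, Complex.norm_I, one_mul,
    Complex.norm_real, Real.norm_eq_abs]
  gcongr
  refine (norm_sub_le _ _).trans ?_
  have e1 : ‖Complex.exp (Complex.I * s * ((1 : ℝ) : ℂ))‖ = 1 := by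
    rw [show Complex.I * (s : ℂ) * ((1 : ℝ) : ℂ) = (s : ℂ) * Complex.I by push_cast; ring,
      Complex.norm_exp_ofReal_mul_I]
  have e2 : ‖Complex.exp (Complex.I * s * ((0 : ℝ) : ℂ))‖ = 1 := by simp
  rw [e1, e2]
  norm_num

lemma fin_prod (s : Idx → ℝ) (T : Finset Idx) :
    ∫ ω : Om, Complex.exp (Complex.I * ((∑ j ∈ T, s j * (ω j : ℝ) : ℝ) : ℂ)) ∂Pr =
      ∏ j ∈ T, ∫ x : unitInterval, Complex.exp (Complex.I * ((s j * (x : ℝ) : ℝ) : ℂ)) := by
  have h1 := integral_restrict_infinitePi (μ := fun _ : Idx => (volume : Measure unitInterval))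
    (s := T) (f := fun y : (∀ _ : T, unitInterval) =>
      ∏ i : T, Complex.exp (Complex.I * ((s i * (y i : ℝ) : ℝ) : ℂ)))
    (by
      refine Measurable.aestronglyMeasurable ?_
      fun_prop)
  rw [integral_fintype_prod_eq_prod (μ := fun _ : T => (volume : Measure unitInterval))
    (fun (i : T) (x : unitInterval) => Complex.exp (Complex.I * ((s i * (x : ℝ) : ℝ) : ℂ)))] at h1
  rw [← Finset.prod_coe_sort T (fun j => ∫ x : unitInterval,
    Complex.exp (Complex.I * ((s j * (x : ℝ) : ℝ) : ℂ))), ← h1]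
  unfold Pr
  refine integral_congr_ae (Eventually.of_forall fun ω => ?_)
  show _ = _
  simp only [Finset.restrict]
  rw [Finset.prod_coe_sort T (fun j => Complex.exp (Complex.I * ((s j * (ω j : ℝ) : ℝ) : ℂ))),
    ← Complex.exp_sum]
  congr 1
  push_cast
  rw [Finset.mul_sum]

theorem char : S_CHAR := by
  intro s hs J τ hτ hJ
  have hlim : Tendsto (fun T : Finset Idx =>
      ∫ ω : Om, Complex.exp (Complex.I * ((∑ j ∈ T, s j * (ω j : ℝ) : ℝ) : ℂ)) ∂Pr) atTop
      (𝓝 (∫ ω : Om, Complex.exp (Complex.I * ((∑' j : Idx, s j * (ω j : ℝ) : ℝ) : ℂ)) ∂Pr)) := by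
    refine tendsto_integral_filter_of_dominated_convergence (fun _ => (1 : ℝ))
      (Eventually.of_forall fun T => ?_) (Eventually.of_forall fun T =>
        Eventually.of_forall fun ω => ?_) (integrable_const _) (Eventually.of_forall fun ω => ?_)
    · refine Measurable.aestronglyMeasurable ?_
      fun_prop
    · rw [mul_comm, Complex.norm_exp_ofReal_mul_I]
    · have hsum : Summable (fun j => s j * (ω j : ℝ)) := by
        refine Summable.of_norm_bounded hs fun j => ?_
        rw [norm_mul, Real.norm_eq_abs, Real.norm_eq_abs]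
        have h1 : |((ω j : unitInterval) : ℝ)| ≤ 1 := by
          rw [abs_of_nonneg (ω j).2.1]
          exact (ω j).2.2
        exact mul_le_of_le_one_right (abs_nonneg _) h1
      have h2 := hsum.hasSum
      have hcont : Continuous (fun x : ℝ => Complex.exp (Complex.I * (x : ℂ))) := by fun_prop
      exact (hcont.tendsto _).comp h2
  refine le_of_tendsto hlim.norm ?_
  filter_upwards [eventually_ge_atTop J] with T hT
  rw [fin_prod, norm_prod, ← Finset.prod_sdiff hT]
  have e1 : ∏ j ∈ T \ J, ‖∫ x : unitInterval, Complex.exp (Complex.I * ((s j * (x : ℝ) : ℝ) : ℂ))‖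
      ≤ 1 := Finset.prod_le_one (fun _ _ => norm_nonneg _) fun _ _ => norm_fac_le_one _
  have e2 : ∏ j ∈ J, ‖∫ x : unitInterval, Complex.exp (Complex.I * ((s j * (x : ℝ) : ℝ) : ℂ))‖
      ≤ (2 / τ) ^ J.card := by
    rw [← Finset.prod_const]
    refine Finset.prod_le_prod (fun _ _ => norm_nonneg _) fun j hj => ?_
    have h3 := hJ j hj
    have h4 : s j ≠ 0 := by
      intro h0
      rw [h0, abs_zero] at h3
      linarith
    refine (norm_fac_le h4).trans ?_
    gcongr
  calc _ ≤ 1 * (2 / τ) ^ J.card :=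
        mul_le_mul e1 e2 (Finset.prod_nonneg fun _ _ => norm_nonneg _) zero_le_one
    _ = _ := one_mul _

end Pool.Agent.W509.WL
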