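import Pool.Agent.W172.WL.Stm

/-!
Project WL: from the good property to bounded `L²` norms (`comp : S_COMP`).
-/

set_option autoImplicit false

namespace Pool.Agent.W509.WL

open MeasureTheory Set Pool.Agent.W172.WL Filter Topology
open scoped ENNReal NNReal

section basics

variable {b : ℕ} {α : ℝ} {g : ℝ → ℝ}

lemma qpow (hb : 2 ≤ b) (s : ℝ) (k : ℕ) : (b : ℝ) ^ (-(s * k)) = ((b : ℝ) ^ (-s)) ^ k := by
  rw [← Real.rpow_natCast, ← Real.rpow_mul (by positivity)]
  congr 1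
  ring

lemma q_lt_one (hb : 2 ≤ b) {s : ℝ} (hs : 0 < s) : (b : ℝ) ^ (-s) < 1 := by
  apply Real.rpow_lt_one_of_one_lt_of_neg
  · have : (2 : ℝ) ≤ b := by exact_mod_cast hb
    linarith
  · linarith

lemma q_pos (hb : 2 ≤ b) (s : ℝ) : 0 < (b : ℝ) ^ s := by
  have : (2 : ℝ) ≤ b := by exact_mod_cast hb
  positivity

lemma W_summable_bd (hb : 2 ≤ b) (hα : 0 < α) (M : ℝ) :
    Summable fun k : ℕ => (b : ℝ) ^ (-(α * k)) * M := by
  simp_rw [qpow hb]
  exact (summable_geometric_of_lt_one (q_pos hb _).le (q_lt_one hb hα)).mul_right M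

lemma W_summable (hb : 2 ≤ b) (hα : 0 < α) (hg : LipPer g) (x : ℝ) :
    Summable fun k : ℕ => (b : ℝ) ^ (-(α * k)) * g ((b : ℝ) ^ k * x) := by
  obtain ⟨M, hM⟩ := hg.bdd
  refine Summable.of_norm_bounded (W_summable_bd hb hα M) fun k => ?_
  rw [norm_mul, Real.norm_of_nonneg (q_pos hb _).le, Real.norm_eq_abs]
  exact mul_le_mul_of_nonneg_left (hM _) (q_pos hb _).le

lemma W_cont (hb : 2 ≤ b) (hα : 0 < α) (hg : LipPer g) : Continuous (W b α g) := by
  obtain ⟨M, hM⟩ := hg.bdd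
  have hgc := hg.continuous
  refine continuous_tsum (fun k => by fun_prop) (W_summable_bd hb hα M) fun k x => ?_
  rw [norm_mul, Real.norm_of_nonneg (q_pos hb _).le, Real.norm_eq_abs]
  exact mul_le_mul_of_nonneg_left (hM _) (q_pos hb _).le

lemma W_rec (hb : 2 ≤ b) (hα : 0 < α) (hg : LipPer g) (x : ℝ) :
    W b α g x = g x + (b : ℝ) ^ (-α) * W b α g (b * x) := by
  unfold W
  rw [(W_summable hb hα hg x).tsum_eq_zero_add, ← tsum_mul_left]
  congr 1
  · simp
  · refine tsum_congr fun k => ?_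
    rw [← mul_assoc, ← Real.rpow_add (by positivity)]
    congr 1
    · congr 1
      push_cast
      ring
    · congr 1
      ring

lemma g_per (hg : LipPer g) (x : ℝ) (m : ℕ) : g (x + m) = g x := by
  have := hg.1.nat_mul m x
  rwa [mul_one] at this

lemma W_per (hg : LipPer g) (x : ℝ) (m : ℕ) : W b α g (x + m) = W b α g x := by
  unfold W
  refine tsum_congr fun k => ?_
  congr 1
  have : (b : ℝ) ^ k * (x + m) = (b : ℝ) ^ k * x + ((b ^ k * m : ℕ) : ℝ) := by
    push_cast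
    ring
  rw [this, g_per hg]

lemma F_succ (hb : 2 ≤ b) (hα : 0 < α) (hg : LipPer g) (n z : ℕ) (u : ℝ) :
    F b α g (n + 1) z u = (b : ℝ) ^ (α * (n + 1)) * g ((z + u) / (b : ℝ) ^ (n + 1)) +
      F b α g n z u := by
  have hb0 : (0 : ℝ) < b := by
    have : (2 : ℝ) ≤ b := by exact_mod_cast hb
    linarith
  unfold F
  rw [W_rec hb hα hg ((z + u) / (b : ℝ) ^ (n + 1)), mul_add]
  push_cast
  congr 1
  rw [← mul_assoc, ← Real.rpow_add hb0]
  congr 1
  · congr 1
    ring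
  · congr 1
    rw [pow_succ]
    field_simp

lemma F_sum (hb : 2 ≤ b) (hα : 0 < α) (hg : LipPer g) {m n : ℕ} (hmn : m ≤ n) (z : ℕ) (u : ℝ) :
    F b α g n z u = (∑ j ∈ Finset.Ico m n, (b : ℝ) ^ (α * (j + 1)) *
      g ((z + u) / (b : ℝ) ^ (j + 1))) + F b α g m z u := by
  induction n, hmn using Nat.le_induction with
  | base => simp
  | succ n hmn ih =>
    rw [F_succ hb hα hg, ih, Finset.sum_Ico_succ_top hmn]
    ring

lemma F_mod (hb : 2 ≤ b) (hg : LipPer g) (m z : ℕ) (u : ℝ) :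
    F b α g m z u = F b α g m (z % b ^ m) u := by
  have hb0 : (0 : ℝ) < b := by
    have : (2 : ℝ) ≤ b := by exact_mod_cast hb
    linarith
  unfold F
  congr 1
  have h1 : (z : ℝ) = ((z % b ^ m : ℕ) : ℝ) + (b : ℝ) ^ m * ((z / b ^ m : ℕ) : ℝ) := by
    have := Nat.mod_add_div z (b ^ m)
    exact_mod_cast this.symm
  have h2 : ((z : ℝ) + u) / (b : ℝ) ^ m =
      (((z % b ^ m : ℕ) : ℝ) + u) / (b : ℝ) ^ m + ((z / b ^ m : ℕ) : ℝ) := by
    rw [h1]
    field_simp
    ring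
  rw [h2, W_per hg]

lemma F_cont (hb : 2 ≤ b) (hα : 0 < α) (hg : LipPer g) (n z : ℕ) :
    Continuous (F b α g n z) := by
  have := W_cont hb hα hg
  unfold F
  fun_prop

lemma nuHat_cont (hb : 2 ≤ b) (hα : 0 < α) (hg : LipPer g) (n z : ℕ) :
    Continuous (nuHat b α g n z) := by
  have hF := F_cont hb hα hg n z
  unfold nuHat
  refine continuous_of_dominated (bound := fun _ => (1 : ℝ)) (fun ξ => ?_) (fun ξ => ?_)
    (integrable_const _) (Eventually.of_forall fun x => ?_)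
  · refine Continuous.aestronglyMeasurable ?_
    fun_prop
  · refine Eventually.of_forall fun x => ?_
    rw [mul_comm, Complex.norm_exp_ofReal_mul_I]
  · fun_prop

lemma nuHat_le_one (n z : ℕ) (ξ : ℝ) : ‖nuHat b α g n z ξ‖ ≤ 1 := by
  unfold nuHat
  refine (norm_integral_le_of_norm_le_const (C := 1) (Eventually.of_forall fun x => ?_)).trans ?_
  · rw [mul_comm, Complex.norm_exp_ofReal_mul_I]
  · simp

lemma norm_exp_sub (x y : ℝ) :
    ‖Complex.exp (Complex.I * (x : ℂ)) - Complex.exp (Complex.I * (y : ℂ))‖ ≤ |x - y| := by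
  have h1 : Complex.exp (Complex.I * (x : ℂ)) - Complex.exp (Complex.I * (y : ℂ)) =
      Complex.exp (Complex.I * (y : ℂ)) * (Complex.exp (Complex.I * ((x - y : ℝ) : ℂ)) - 1) := by
    rw [mul_sub, ← Complex.exp_add, mul_one]
    congr 2
    push_cast
    ring
  rw [h1, norm_mul, mul_comm Complex.I (y : ℂ), Complex.norm_exp_ofReal_mul_I, one_mul]
  exact Real.norm_exp_I_mul_ofReal_sub_one_le

lemma sum_bound (hb : 2 ≤ b) (hα1 : α < 1) (m n : ℕ) :
    ∑ j ∈ Finset.Ico m n, (b : ℝ) ^ (-((1 - α) * (j + 1))) ≤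
      (b : ℝ) ^ (-((1 - α) * m)) * (1 - (b : ℝ) ^ (-(1 - α)))⁻¹ := by
  have hs : 0 < 1 - α := by linarith
  have hq := q_lt_one hb hs
  have hq0 := q_pos hb (-(1 - α))
  have h1 : ∀ j : ℕ, (b : ℝ) ^ (-((1 - α) * ((j : ℝ) + 1))) ≤ ((b : ℝ) ^ (-(1 - α))) ^ j := by
    intro j
    rw [← qpow hb]
    apply Real.rpow_le_rpow_of_exponent_le
    · have : (2 : ℝ) ≤ b := by exact_mod_cast hb
      linarith
    · nlinarith
  refine (Finset.sum_le_sum fun j _ => h1 j).trans ?_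
  rw [qpow hb]
  rw [Finset.sum_Ico_eq_sum_range]
  simp_rw [pow_add]
  rw [← Finset.mul_sum]
  refine mul_le_mul_of_nonneg_left ?_ (by positivity)
  rw [← tsum_geometric_of_lt_one hq0.le hq]
  exact (summable_geometric_of_lt_one hq0.le hq).sum_le_tsum _ fun i _ => by positivity

/-- comparison of two levels -/
lemma compare (hb : 2 ≤ b) (hα : 0 < α) (hα1 : α < 1) (hg : LipPer g) {K : ℝ} (hK0 : 0 ≤ K)
    (hK : ∀ x y, |g x - g y| ≤ K * |x - y|) {m n : ℕ} (hmn : m ≤ n) (z : ℕ) (ξ : ℝ) :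
    ‖nuHat b α g n z ξ‖ ≤ ‖nuHat b α g m (z % b ^ m) ξ‖ +
      |ξ| * (K * (1 - (b : ℝ) ^ (-(1 - α)))⁻¹ * (b : ℝ) ^ (-((1 - α) * m))) := by
  have hb0 : (0 : ℝ) < b := by
    have : (2 : ℝ) ≤ b := by exact_mod_cast hb
    linarith
  set D : ℝ → ℝ := fun u => ∑ j ∈ Finset.Ico m n, (b : ℝ) ^ (α * (j + 1)) *
      g ((z + u) / (b : ℝ) ^ (j + 1)) with hD
  have hDcont : Continuous D := by
    have := hg.continuous
    rw [hD]
    fun_prop
  have hF : ∀ u, F b α g n z u = D u + F b α g m (z % b ^ m) u := fun u => by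
    rw [F_sum hb hα hg hmn, ← F_mod hb hg]
  have hDD : ∀ u ∈ Icc (0 : ℝ) 1, |D u - D 0| ≤
      K * (1 - (b : ℝ) ^ (-(1 - α)))⁻¹ * (b : ℝ) ^ (-((1 - α) * m)) := by
    intro u hu
    rw [hD]
    simp only
    rw [← Finset.sum_sub_distrib]
    refine (Finset.abs_sum_le_sum_abs _ _).trans ?_
    have h1 : ∀ j ∈ Finset.Ico m n, |(b : ℝ) ^ (α * (j + 1)) * g ((z + u) / (b : ℝ) ^ (j + 1)) -
        (b : ℝ) ^ (α * (j + 1)) * g ((z + 0) / (b : ℝ) ^ (j + 1))| ≤
        K * (b : ℝ) ^ (-((1 - α) * (j + 1))) := by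
      intro j _
      rw [← mul_sub, abs_mul, abs_of_pos (q_pos hb _)]
      have h2 := hK ((z + u) / (b : ℝ) ^ (j + 1)) ((z + 0) / (b : ℝ) ^ (j + 1))
      have h3 : |(z + u) / (b : ℝ) ^ (j + 1) - (z + 0) / (b : ℝ) ^ (j + 1)| ≤
          (b : ℝ) ^ (-((j : ℝ) + 1)) := by
        rw [← sub_div, add_sub_add_left_eq_sub, sub_zero, abs_div, abs_of_nonneg hu.1,
          abs_of_pos (by positivity), Real.rpow_neg hb0.le]
        have : (b : ℝ) ^ ((j : ℝ) + 1) = (b : ℝ) ^ (j + 1) := by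
          rw [← Real.rpow_natCast]
          push_cast
          rfl
        rw [this, div_eq_mul_inv]
        exact mul_le_of_le_one_left (by positivity) hu.2
      have h4 : (b : ℝ) ^ (-((1 - α) * ((j : ℝ) + 1))) =
          (b : ℝ) ^ (α * ((j : ℝ) + 1)) * (b : ℝ) ^ (-((j : ℝ) + 1)) := by
        rw [← Real.rpow_add hb0]
        congr 1
        ring
      rw [h4]
      have h5 := q_pos hb (α * ((j : ℝ) + 1))
      calc (b : ℝ) ^ (α * ((j : ℝ) + 1)) * |g ((z + u) / (b : ℝ) ^ (j + 1)) -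
            g ((z + 0) / (b : ℝ) ^ (j + 1))|
          ≤ (b : ℝ) ^ (α * ((j : ℝ) + 1)) * (K * (b : ℝ) ^ (-((j : ℝ) + 1))) := by
            refine mul_le_mul_of_nonneg_left (h2.trans ?_) h5.le
            exact mul_le_mul_of_nonneg_left h3 hK0
        _ = _ := by ring
    refine (Finset.sum_le_sum h1).trans ?_
    rw [← Finset.mul_sum]
    have := mul_le_mul_of_nonneg_left (sum_bound hb hα1 m n) hK0
    linarith
  have hFm := F_cont hb hα hg m (z % b ^ m)
  have hFn := F_cont hb hα hg n z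
  set c : ℂ := Complex.exp (Complex.I * ((-(ξ * D 0) : ℝ) : ℂ)) with hc
  have hcn : ‖c‖ = 1 := by rw [hc, mul_comm, Complex.norm_exp_ofReal_mul_I]
  have h1 : ‖c * nuHat b α g n z ξ - nuHat b α g m (z % b ^ m) ξ‖ ≤
      |ξ| * (K * (1 - (b : ℝ) ^ (-(1 - α)))⁻¹ * (b : ℝ) ^ (-((1 - α) * m))) := by
    unfold nuHat
    rw [← integral_const_mul, ← integral_sub]
    · refine (norm_integral_le_of_norm_le_const (C := |ξ| * (K * (1 - (b : ℝ) ^ (-(1 - α)))⁻¹ *
        (b : ℝ) ^ (-((1 - α) * m)))) ?_).trans ?_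
      · rw [ae_restrict_iff' measurableSet_Icc]
        refine Eventually.of_forall fun u hu => ?_
        rw [hc, ← Complex.exp_add, ← mul_add, ← Complex.ofReal_add]
        refine (norm_exp_sub _ _).trans ?_
        rw [hF u]
        have e1 : -(ξ * D 0) + ξ * (D u + F b α g m (z % b ^ m) u) -
            ξ * F b α g m (z % b ^ m) u = ξ * (D u - D 0) := by ring
        rw [e1, abs_mul]
        exact mul_le_mul_of_nonneg_left (hDD u hu) (abs_nonneg _)
      · simp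
    · refine Continuous.integrableOn_Icc ?_
      fun_prop
    · refine Continuous.integrableOn_Icc ?_
      fun_prop
  have h2 : ‖nuHat b α g n z ξ‖ = ‖c * nuHat b α g n z ξ‖ := by
    rw [norm_mul, hcn, one_mul]
  rw [h2]
  have h3 := norm_add_le (c * nuHat b α g n z ξ - nuHat b α g m (z % b ^ m) ξ)
    (nuHat b α g m (z % b ^ m) ξ)
  rw [sub_add_cancel] at h3
  linarith

end basics

lemma Blk_compact (b : ℕ) (α : ℝ) (L : ℕ) : IsCompact (Blk b α L) := by
  have h1 : Blk b α L = {ξ : ℝ | (b : ℝ) ^ (th α * L) ≤ |ξ|} ∩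
      Icc (-((b : ℝ) ^ (th α * (L + 1)))) ((b : ℝ) ^ (th α * (L + 1))) := by
    ext ξ
    simp only [Blk, Set.mem_ofPred_eq, Set.mem_inter_iff, Set.mem_Icc, abs_le]
  rw [h1]
  exact isCompact_Icc.inter_left (isClosed_le continuous_const continuous_abs)

lemma Blk_vol {b : ℕ} (hb : 2 ≤ b) (α : ℝ) (L : ℕ) :
    (volume : Measure ℝ).real (Blk b α L) ≤ 2 * (b : ℝ) ^ (th α * (L + 1)) := by
  have h1 : Blk b α L ⊆ Icc (-((b : ℝ) ^ (th α * (L + 1)))) ((b : ℝ) ^ (th α * (L + 1))) := by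
    intro ξ hξ
    exact abs_le.mp hξ.2
  refine (measureReal_mono h1 (by simp)).trans ?_
  have := q_pos hb (th α * (L + 1))
  rw [Real.volume_real_Icc_of_le (by linarith)]
  linarith

theorem comp : S_COMP := by
  intro b α hb hα hα1 g hg ⟨M, hM⟩
  obtain ⟨K, hK0, hK⟩ := hg.lip
  have hb0 : (0 : ℝ) < b := by
    have : (2 : ℝ) ≤ b := by exact_mod_cast hb
    linarith
  have hb1 : (1 : ℝ) < b := by
    have : (2 : ℝ) ≤ b := by exact_mod_cast hb
    linarith
  set C : ℝ := K * (1 - (b : ℝ) ^ (-(1 - α)))⁻¹ with hC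
  have hC0 : 0 ≤ C := by
    have := q_lt_one hb (s := 1 - α) (by linarith)
    have h2 : 0 < (1 - (b : ℝ) ^ (-(1 - α)))⁻¹ := inv_pos.mpr (by linarith)
    positivity
  have hθ : 0 < th α := by unfold th; linarith
  have hη : 0 < et α := by unfold et; linarith
  have hθ2 : 0 < 2 - th α := by unfold th; linarith
  set a : ℕ → ℝ := fun L => 2 * |M| * (b : ℝ) ^ (-(et α * L)) +
    4 * C ^ 2 * (b : ℝ) ^ (-((2 - th α) * L)) with ha
  have ha0 : ∀ L, 0 ≤ a L := fun L => by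
    have := q_pos hb (-(et α * L))
    have := q_pos hb (-((2 - th α) * L))
    positivity
  have hasum : Summable a := by
    rw [ha]
    simp_rw [qpow hb]
    exact ((summable_geometric_of_lt_one (q_pos hb _).le (q_lt_one hb hη)).mul_left _).add
      ((summable_geometric_of_lt_one (q_pos hb _).le (q_lt_one hb hθ2)).mul_left _)
  have hblk : ∀ L n z : ℕ, z < b ^ n →
      ∫ ξ in Blk b α L, ‖nuHat b α g n z ξ‖ ^ 2 ≤ a L := by
    intro L n z hz
    have hp := q_pos hb (-(et α * L))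
    have hp2 := q_pos hb (-((2 - th α) * L))
    by_cases hn : n ≤ mL α L
    · have h1 := hM L n z hn hz
      have h2 : M * (b : ℝ) ^ (-(et α * L)) ≤ |M| * (b : ℝ) ^ (-(et α * L)) :=
        mul_le_mul_of_nonneg_right (le_abs_self M) hp.le
      rw [ha]
      simp only
      have h3 : 0 ≤ |M| * (b : ℝ) ^ (-(et α * L)) := by positivity
      have h4 : 0 ≤ 4 * C ^ 2 * (b : ℝ) ^ (-((2 - th α) * L)) := by positivity
      linarith
    · push Not at hn
      set m := mL α L with hm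
      have hz' : z % b ^ m < b ^ m := Nat.mod_lt _ (by positivity)
      have h1 := hM L m (z % b ^ m) le_rfl hz'
      have hint : ∀ n' z', IntegrableOn (fun ξ => ‖nuHat b α g n' z' ξ‖ ^ 2) (Blk b α L) := by
        intro n' z'
        have := nuHat_cont hb hα hg n' z'
        exact ((this.norm.pow 2).continuousOn).integrableOn_compact (Blk_compact b α L)
      have hconst : ∀ c : ℝ, IntegrableOn (fun _ : ℝ => c) (Blk b α L) := fun c =>
        continuous_const.continuousOn.integrableOn_compact (Blk_compact b α L)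
      have hmr : (th α + 1) * ((L : ℝ) + 1) ≤ (1 - α) * m := by
        have h2 := Nat.le_ceil ((th α + 1) * ((L : ℝ) + 1) / (1 - α))
        rw [div_le_iff₀ (by linarith)] at h2
        rw [hm]
        unfold mL
        linarith
      have hpt : ∀ ξ ∈ Blk b α L, ‖nuHat b α g n z ξ‖ ^ 2 ≤
          2 * ‖nuHat b α g m (z % b ^ m) ξ‖ ^ 2 + 2 * (C * (b : ℝ) ^ (-((L : ℝ) + 1))) ^ 2 := by
        intro ξ hξ
        have h3 := compare hb hα hα1 hg hK0 hK hn.le z ξ
        have h4 : |ξ| * (C * (b : ℝ) ^ (-((1 - α) * m))) ≤ C * (b : ℝ) ^ (-((L : ℝ) + 1)) := by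
          have h5 : (b : ℝ) ^ (-((1 - α) * m)) ≤ (b : ℝ) ^ (-((th α + 1) * ((L : ℝ) + 1))) :=
            Real.rpow_le_rpow_of_exponent_le hb1.le (by linarith)
          have h6 : (b : ℝ) ^ (th α * ((L : ℝ) + 1)) * (b : ℝ) ^ (-((th α + 1) * ((L : ℝ) + 1))) =
              (b : ℝ) ^ (-((L : ℝ) + 1)) := by
            rw [← Real.rpow_add hb0]
            congr 1
            ring
          rw [← h6]
          have h7 := hξ.2
          have h8 := q_pos hb (-((1 - α) * m))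
          have h9 := q_pos hb (th α * ((L : ℝ) + 1))
          calc |ξ| * (C * (b : ℝ) ^ (-((1 - α) * m)))
              ≤ (b : ℝ) ^ (th α * ((L : ℝ) + 1)) *
                (C * (b : ℝ) ^ (-((th α + 1) * ((L : ℝ) + 1)))) := by gcongr
            _ = _ := by ring
        have h5 : ‖nuHat b α g n z ξ‖ ≤ ‖nuHat b α g m (z % b ^ m) ξ‖ +
            C * (b : ℝ) ^ (-((L : ℝ) + 1)) := by
          refine h3.trans ?_
          gcongr
        have h6 : 0 ≤ ‖nuHat b α g n z ξ‖ := norm_nonneg _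
        have h7 : ‖nuHat b α g n z ξ‖ ^ 2 ≤ (‖nuHat b α g m (z % b ^ m) ξ‖ +
            C * (b : ℝ) ^ (-((L : ℝ) + 1))) ^ 2 := by gcongr
        nlinarith [sq_nonneg (‖nuHat b α g m (z % b ^ m) ξ‖ - C * (b : ℝ) ^ (-((L : ℝ) + 1)))]
      have h2 := setIntegral_mono_on (hint n z)
        (((hint m (z % b ^ m)).const_mul 2).add (hconst (2 * (C * (b : ℝ) ^ (-((L : ℝ) + 1))) ^ 2)))
        (Blk_compact b α L).measurableSet hpt
      refine h2.trans ?_
      rw [integral_add' ((hint m (z % b ^ m)).const_mul 2) (hconst _), integral_const_mul,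
        setIntegral_const, smul_eq_mul]
      have h3 : (volume : Measure ℝ).real (Blk b α L) * (2 * (C * (b : ℝ) ^ (-((L : ℝ) + 1))) ^ 2) ≤
          4 * C ^ 2 * (b : ℝ) ^ (-((2 - th α) * L)) := by
        have h4 : (b : ℝ) ^ (th α * ((L : ℝ) + 1)) * ((b : ℝ) ^ (-((L : ℝ) + 1))) ^ 2 ≤
            (b : ℝ) ^ (-((2 - th α) * L)) := by
          rw [← Real.rpow_natCast, ← Real.rpow_mul hb0.le, ← Real.rpow_add hb0]
          apply Real.rpow_le_rpow_of_exponent_le hb1.le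
          push_cast
          nlinarith
        calc (volume : Measure ℝ).real (Blk b α L) * (2 * (C * (b : ℝ) ^ (-((L : ℝ) + 1))) ^ 2)
            ≤ (2 * (b : ℝ) ^ (th α * (L + 1))) * (2 * (C * (b : ℝ) ^ (-((L : ℝ) + 1))) ^ 2) :=
              mul_le_mul_of_nonneg_right (Blk_vol hb α L) (by positivity)
          _ = 4 * C ^ 2 * ((b : ℝ) ^ (th α * ((L : ℝ) + 1)) *
                ((b : ℝ) ^ (-((L : ℝ) + 1))) ^ 2) := by ring
          _ ≤ _ := mul_le_mul_of_nonneg_left h4 (by positivity)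
      have h5 : M * (b : ℝ) ^ (-(et α * L)) ≤ |M| * (b : ℝ) ^ (-(et α * L)) :=
        mul_le_mul_of_nonneg_right (le_abs_self M) hp.le
      rw [ha]
      simp only
      linarith
  refine ⟨2 + Real.toNNReal (∑' L, a L), fun n z hz => ?_⟩
  have hcover : (univ : Set ℝ) ⊆ Icc (-1) 1 ∪ ⋃ L, Blk b α L := by
    intro ξ _
    by_cases hξ : |ξ| ≤ 1
    · left
      exact abs_le.mp hξ
    · right
      push Not at hξ
      have hy : 1 < (b : ℝ) ^ (th α) := Real.one_lt_rpow hb1 hθ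
      obtain ⟨L, hL1, hL2⟩ := exists_nat_pow_near hξ.le hy
      rw [Set.mem_iUnion]
      refine ⟨L, ?_, ?_⟩
      · rw [Real.rpow_mul hb0.le, Real.rpow_natCast]
        exact hL1
      · have e1 : (b : ℝ) ^ (th α * ((L : ℝ) + 1)) = ((b : ℝ) ^ (th α)) ^ (L + 1) := by
          rw [Real.rpow_mul hb0.le, ← Real.rpow_natCast]
          push_cast
          rfl
        rw [e1]
        exact hL2.le
  have h1 : (∫⁻ ξ : ℝ, ‖nuHat b α g n z ξ‖ₑ ^ 2) ≤
      (∫⁻ ξ in Icc (-1 : ℝ) 1, ‖nuHat b α g n z ξ‖ₑ ^ 2) +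
      ∫⁻ ξ in ⋃ L, Blk b α L, ‖nuHat b α g n z ξ‖ₑ ^ 2 := by
    rw [← setLIntegral_univ]
    exact (lintegral_mono_set hcover).trans (lintegral_union_le _ _ _)
  refine h1.trans ?_
  have h2 : (∫⁻ ξ in Icc (-1 : ℝ) 1, ‖nuHat b α g n z ξ‖ₑ ^ 2) ≤ 2 := by
    calc (∫⁻ ξ in Icc (-1 : ℝ) 1, ‖nuHat b α g n z ξ‖ₑ ^ 2)
        ≤ ∫⁻ _ in Icc (-1 : ℝ) 1, 1 := by
          refine lintegral_mono fun ξ => ?_
          refine pow_le_one₀ zero_le ?_
          rw [← ofReal_norm, ENNReal.ofReal_le_one]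
          exact nuHat_le_one n z ξ
      _ = 2 := by
          rw [setLIntegral_one, Real.volume_Icc]
          norm_num
  have h3 : (∫⁻ ξ in ⋃ L, Blk b α L, ‖nuHat b α g n z ξ‖ₑ ^ 2) ≤
      ENNReal.ofReal (∑' L, a L) := by
    refine (lintegral_iUnion_le _ _).trans ?_
    rw [ENNReal.ofReal_tsum_of_nonneg ha0 hasum]
    refine ENNReal.tsum_le_tsum fun L => ?_
    have h4 : (∫⁻ ξ in Blk b α L, ‖nuHat b α g n z ξ‖ₑ ^ 2) =
        ENNReal.ofReal (∫ ξ in Blk b α L, ‖nuHat b α g n z ξ‖ ^ 2) := by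
      rw [ofReal_integral_eq_lintegral_ofReal]
      · refine lintegral_congr fun x => ?_
        rw [ENNReal.ofReal_pow (norm_nonneg _), ofReal_norm]
      · exact (((nuHat_cont hb hα hg n z).norm.pow 2).continuousOn).integrableOn_compact
          (Blk_compact b α L)
      · exact Eventually.of_forall fun x => by positivity
    rw [h4]
    exact ENNReal.ofReal_le_ofReal (hblk L n z hz)
  calc _ ≤ 2 + ENNReal.ofReal (∑' L, a L) := add_le_add h2 h3
    _ = ((2 + Real.toNNReal (∑' L, a L) : ℝ≥0) : ℝ≥0∞) := by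
      push_cast
      rfl

end Pool.Agent.W509.WL
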