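import Pool.Agent.W172.WL.Stm

/-!
Project WL: finite measures with a square integrable Fourier transform (`fl2 : S_FL2`).
-/

set_option autoImplicit false

namespace Pool.Agent.W509.WL

open MeasureTheory Set Pool.Agent.W172.WL Filter Topology FourierTransform SchwartzMap
open scoped ENNReal NNReal Manifold ContDiff

/-- the Fourier transform -/
noncomputable def ft (ν : Measure ℝ) (ξ : ℝ) : ℂ :=
  ∫ x, Complex.exp (Complex.I * ((ξ * x : ℝ) : ℂ)) ∂ν

lemma ft_cont (ν : Measure ℝ) [IsFiniteMeasure ν] : Continuous (ft ν) := by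
  unfold ft
  refine continuous_of_dominated (bound := fun _ => (1 : ℝ)) (fun ξ => ?_) (fun ξ => ?_)
    (integrable_const _) (Eventually.of_forall fun x => ?_)
  · refine Continuous.aestronglyMeasurable ?_
    fun_prop
  · refine Eventually.of_forall fun x => ?_
    rw [mul_comm, Complex.norm_exp_ofReal_mul_I]
  · fun_prop

lemma int_schwartz (ν : Measure ℝ) [IsFiniteMeasure ν] (φ : 𝓢(ℝ, ℂ)) :
    ∫ x, φ x ∂ν = ∫ ξ : ℝ, ft ν (2 * Real.pi * ξ) * (𝓕 φ) ξ := by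
  have h1 : ∀ x : ℝ, φ x = ∫ ξ : ℝ,
      Complex.exp (Complex.I * ((2 * Real.pi * ξ * x : ℝ) : ℂ)) * (𝓕 φ) ξ := by
    intro x
    have h2 : 𝓕⁻ (𝓕 φ) = φ := FourierTransform.fourierInv_fourier_eq φ
    conv_lhs => rw [← h2]
    rw [SchwartzMap.fourierInv_coe, Real.fourierInv_eq']
    refine integral_congr_ae (Eventually.of_forall fun ξ => ?_)
    show _ = _
    simp only [RCLike.inner_apply, conj_trivial, smul_eq_mul]
    congr 2
    push_cast
    ring
  simp_rw [h1]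
  have hint : Integrable (Function.uncurry fun (x ξ : ℝ) =>
      Complex.exp (Complex.I * ((2 * Real.pi * ξ * x : ℝ) : ℂ)) * (𝓕 φ) ξ)
      (ν.prod (volume : Measure ℝ)) := by
    have h3 : Integrable (fun q : ℝ × ℝ => (𝓕 φ) q.2) (ν.prod (volume : Measure ℝ)) :=
      ((𝓕 φ).integrable (μ := volume)).comp_snd ν
    refine h3.norm.mono' ?_ (Eventually.of_forall fun q => ?_)
    · refine Continuous.aestronglyMeasurable ?_
      have h4 : Continuous fun q : ℝ × ℝ => (𝓕 φ) q.2 := (𝓕 φ).continuous.comp continuous_snd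
      unfold Function.uncurry
      simp only
      fun_prop
    · unfold Function.uncurry
      simp only
      rw [norm_mul, mul_comm Complex.I, Complex.norm_exp_ofReal_mul_I, one_mul]
  rw [integral_integral_swap hint]
  refine integral_congr_ae (Eventually.of_forall fun ξ => ?_)
  show _ = _
  simp only
  rw [integral_mul_const]
  rfl

lemma bound_schwartz (ν : Measure ℝ) [IsFiniteMeasure ν] (M : ℝ≥0)
    (hM : (∫⁻ ξ : ℝ, ‖ft ν ξ‖ₑ ^ 2) ≤ M) (φ : 𝓢(ℝ, ℂ)) :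
    ‖∫ x, φ x ∂ν‖ₑ ≤ (M : ℝ≥0∞) ^ (1 / 2 : ℝ) * (∫⁻ x, ‖φ x‖ₑ ^ 2) ^ (1 / 2 : ℝ) := by
  rw [int_schwartz]
  refine (enorm_integral_le_lintegral_enorm _).trans ?_
  simp_rw [enorm_mul]
  have hft := (ft_cont ν).measurable
  have h1 := ENNReal.lintegral_mul_le_Lp_mul_Lq (volume : Measure ℝ)
    (f := fun ξ => ‖ft ν (2 * Real.pi * ξ)‖ₑ) (g := fun ξ => ‖(𝓕 φ) ξ‖ₑ)
    (p := 2) (q := 2) (by constructor <;> norm_num)
    (hft.comp (measurable_const_mul _)).enorm.aemeasurable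
    (𝓕 φ).continuous.measurable.enorm.aemeasurable
  refine h1.trans ?_
  have h2 : (∫⁻ ξ : ℝ, ‖(𝓕 φ) ξ‖ₑ ^ (2 : ℝ)) = ∫⁻ x, ‖φ x‖ₑ ^ 2 := by
    have e1 : ∀ ψ : 𝓢(ℝ, ℂ), (∫⁻ x, ‖ψ x‖ₑ ^ 2) = ENNReal.ofReal (∫ x, ‖ψ x‖ ^ 2) := by
      intro ψ
      rw [ofReal_integral_eq_lintegral_ofReal]
      · refine lintegral_congr fun x => ?_
        rw [ENNReal.ofReal_pow (norm_nonneg _), ofReal_norm]
      · exact (ψ.memLp 2).integrable_norm_pow (by norm_num)
      · exact Eventually.of_forall fun x => by positivity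
    rw [e1 φ, ← SchwartzMap.integral_norm_sq_fourier φ, ← e1]
    refine lintegral_congr fun x => ?_
    norm_cast
  have h3 : (∫⁻ ξ : ℝ, ‖ft ν (2 * Real.pi * ξ)‖ₑ ^ (2 : ℝ)) ≤ M := by
    have e1 : (∫⁻ ξ : ℝ, ‖ft ν (2 * Real.pi * ξ)‖ₑ ^ (2 : ℝ)) =
        ∫⁻ ξ, ‖ft ν ξ‖ₑ ^ 2 ∂(Measure.map (fun x => 2 * Real.pi * x) volume) := by
      rw [lintegral_map (hft.enorm.pow_const 2) (measurable_const_mul _)]
      refine lintegral_congr fun x => ?_
      norm_cast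
    rw [e1, Real.map_volume_mul_left (by positivity), lintegral_smul_measure]
    have e2 : ENNReal.ofReal |(2 * Real.pi)⁻¹| ≤ 1 := by
      rw [ENNReal.ofReal_le_one, abs_of_pos (by positivity)]
      apply inv_le_one_of_one_le₀
      nlinarith [Real.pi_gt_three]
    calc ENNReal.ofReal |(2 * Real.pi)⁻¹| • ∫⁻ ξ, ‖ft ν ξ‖ₑ ^ 2 ≤ 1 * M := by
          rw [smul_eq_mul]
          gcongr
      _ = M := one_mul _
  have h4 : (∫⁻ ξ : ℝ, ‖ft ν (2 * Real.pi * ξ)‖ₑ ^ (2 : ℝ)) ^ (1 / 2 : ℝ) ≤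
      (M : ℝ≥0∞) ^ (1 / 2 : ℝ) := ENNReal.rpow_le_rpow h3 (by norm_num)
  rw [h2]
  gcongr

lemma compact_open (ν : Measure ℝ) [IsFiniteMeasure ν] (M : ℝ≥0)
    (hM : (∫⁻ ξ : ℝ, ‖ft ν ξ‖ₑ ^ 2) ≤ M) {K U : Set ℝ} (hK : IsCompact K) (hU : IsOpen U)
    (hKU : K ⊆ U) (hb : Bornology.IsBounded U) :
    ν K ≤ (M : ℝ≥0∞) ^ (1 / 2 : ℝ) * (volume U) ^ (1 / 2 : ℝ) := by
  obtain ⟨f, hf0, hf1, hf⟩ := exists_contMDiffMap_zero_one_of_isClosed (n := (⊤ : ℕ∞)) 𝓘(ℝ, ℝ)
    hU.isClosed_compl hK.isClosed (disjoint_left.mpr fun x hx hx' => hx (hKU hx'))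
  have hfs : ContDiff ℝ ∞ (f : ℝ → ℝ) := f.contMDiff.contDiff
  have hsup : Function.support (f : ℝ → ℝ) ⊆ U := by
    intro x hx
    by_contra hxU
    exact hx (hf0 hxU)
  have hcs : HasCompactSupport (f : ℝ → ℝ) := by
    refine HasCompactSupport.of_support_subset_isCompact (K := closure U) ?_
      (hsup.trans subset_closure)
    exact hb.isCompact_closure
  have hcs' : HasCompactSupport (Complex.ofRealCLM ∘ (f : ℝ → ℝ)) := hcs.comp_left rfl
  set φ : 𝓢(ℝ, ℂ) := hcs'.toSchwartzMap (Complex.ofRealCLM.contDiff.comp hfs) with hφ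
  have hφx : ∀ x, φ x = ((f x : ℝ) : ℂ) := fun x => rfl
  have h1 := bound_schwartz ν M hM φ
  have hint : Integrable (f : ℝ → ℝ) ν := hfs.continuous.integrable_of_hasCompactSupport hcs
  have h2 : ν K ≤ ‖∫ x, φ x ∂ν‖ₑ := by
    have e1 : ∫ x, φ x ∂ν = ((∫ x, f x ∂ν : ℝ) : ℂ) := by
      simp_rw [hφx]
      exact integral_complex_ofReal
    have e2 : 0 ≤ ∫ x, f x ∂ν := integral_nonneg fun x => (hf x).1
    rw [e1, ← ofReal_norm, Complex.norm_real, Real.norm_of_nonneg e2,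
      ofReal_integral_eq_lintegral_ofReal hint (Eventually.of_forall fun x => (hf x).1)]
    calc ν K = ∫⁻ x, K.indicator 1 x ∂ν := by
          rw [lintegral_indicator_one hK.measurableSet]
      _ ≤ ∫⁻ x, ENNReal.ofReal (f x) ∂ν := by
          refine lintegral_mono fun x => ?_
          by_cases hx : x ∈ K
          · rw [indicator_of_mem hx, hf1 hx]
            simp
          · rw [indicator_of_notMem hx]
            exact zero_le
  have h3 : (∫⁻ x, ‖φ x‖ₑ ^ 2) ≤ volume U := by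
    rw [← lintegral_indicator_one hU.measurableSet]
    refine lintegral_mono fun x => ?_
    by_cases hx : x ∈ U
    · rw [indicator_of_mem hx, hφx, ← ofReal_norm, Complex.norm_real,
        Real.norm_of_nonneg (hf x).1]
      simp only [Pi.one_apply]
      refine pow_le_one₀ (zero_le) ?_
      rw [ENNReal.ofReal_le_one]
      exact (hf x).2
    · have e3 : f x = 0 := hf0 hx
      rw [hφx, e3]
      simp
  refine h2.trans (h1.trans ?_)
  gcongr

theorem fl2 : S_FL2 := by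
  intro ν _ M hM A hA
  have hc : Continuous (fun r : ℝ≥0∞ => (M : ℝ≥0∞) ^ (1 / 2 : ℝ) * r ^ (1 / 2 : ℝ)) :=
    (ENNReal.continuous_const_mul (by
      exact ENNReal.rpow_ne_top_of_nonneg (by norm_num) ENNReal.coe_ne_top)).comp
      ENNReal.continuous_rpow_const
  have hKc : ∀ K : Set ℝ, IsCompact K → ν K ≤ (M : ℝ≥0∞) ^ (1 / 2 : ℝ) *
      (volume K) ^ (1 / 2 : ℝ) := by
    intro K hK
    have h1 : Tendsto (fun n : ℕ => volume K + ((n : ℝ≥0∞))⁻¹) atTop (𝓝 (volume K)) := by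
      have := ENNReal.tendsto_inv_nat_nhds_zero.const_add (volume K)
      rwa [add_zero] at this
    refine ge_of_tendsto' ((hc.tendsto _).comp h1) fun n => ?_
    have h2 : ((n : ℝ≥0∞))⁻¹ ≠ 0 := ENNReal.inv_ne_zero.mpr (ENNReal.natCast_ne_top n)
    obtain ⟨U, hU1, hU2, hU3⟩ := K.exists_isOpen_lt_add (μ := volume) hK.measure_lt_top.ne h2
    obtain ⟨R, hR⟩ := hK.isBounded.subset_ball (0 : ℝ)
    have h3 := compact_open ν M hM hK (hU2.inter Metric.isOpen_ball)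
      (subset_inter hU1 hR) (Metric.isBounded_ball.subset inter_subset_right)
    refine h3.trans ?_
    show _ ≤ (M : ℝ≥0∞) ^ (1 / 2 : ℝ) * (volume K + ((n : ℝ≥0∞))⁻¹) ^ (1 / 2 : ℝ)
    gcongr
    exact (measure_mono inter_subset_left).trans hU3.le
  rw [hA.measure_eq_iSup_isCompact_of_ne_top (measure_ne_top ν A)]
  refine iSup_le fun K => iSup_le fun hKA => iSup_le fun hK => (hKc K hK).trans ?_
  gcongr

end Pool.Agent.W509.WL
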