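import Pool.Agent.W172.WL.Stm

/-!
Project WL: moments (`mom0 : S_MOM0`).
-/

set_option autoImplicit false

namespace Pool.Agent.W509.WL

open MeasureTheory Set Pool.Agent.W172.WL
open scoped ENNReal NNReal

lemma norm_pow_eq_prod (w : ℂ) (f : ℝ → ℂ) (hf1 : f 1 = w) (hf2 : f (-1) = (starRingEnd ℂ) w)
    (p : ℕ) : ((‖w‖ ^ (2 * p) : ℝ) : ℂ) = ∏ a : Fin (2 * p), f (sg p a) := by
  have h1 : ∏ a : Fin (2 * p), f (sg p a) =
      ∏ i ∈ Finset.range (2 * p), f (if i < p then (1 : ℝ) else -1) := by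
    rw [← Fin.prod_univ_eq_prod_range (fun i => f (if i < p then (1 : ℝ) else -1)) (2 * p)]
    rfl
  rw [h1, two_mul, Finset.prod_range_add]
  have h2 : ∏ i ∈ Finset.range p, f (if i < p then (1 : ℝ) else -1) = w ^ p := by
    rw [Finset.prod_congr rfl (g := fun _ => w)]
    · simp
    · intro i hi
      rw [if_pos (Finset.mem_range.mp hi), hf1]
  have h3 : ∏ i ∈ Finset.range p, f (if p + i < p then (1 : ℝ) else -1) =
      ((starRingEnd ℂ) w) ^ p := by
    rw [Finset.prod_congr rfl (g := fun _ => (starRingEnd ℂ) w)]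
    · simp
    · intro i _
      rw [if_neg (by omega), hf2]
  rw [h2, h3, ← mul_pow, Complex.mul_conj, Complex.normSq_eq_norm_sq, ← two_mul, pow_mul]
  push_cast
  rfl

theorem mom0 : S_MOM0 := by
  intro H hH p
  set ν : Measure ℝ := volume.restrict (Icc (0 : ℝ) 1) with hν
  set U : Set (Fin (2 * p) → ℝ) := {u | ∀ a, u a ∈ Icc (0 : ℝ) 1} with hU
  have hUeq : U = Set.pi Set.univ (fun _ : Fin (2 * p) => Icc (0 : ℝ) 1) := by
    ext u
    simp only [hU, Set.mem_pi, Set.mem_ofPred_eq, Set.mem_univ, true_implies]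
  have hmeas : (volume.restrict U : Measure (Fin (2 * p) → ℝ)) = Measure.pi (fun _ => ν) := by
    rw [hUeq, volume_pi, Measure.restrict_pi_pi]
  have hfin : IsFiniteMeasure ν := by
    refine ⟨?_⟩
    simp [hν]
  have hfin2 : IsFiniteMeasure (volume.restrict U : Measure (Fin (2 * p) → ℝ)) := by
    rw [hmeas]; infer_instance
  set E : Om → (Fin (2 * p) → ℝ) → ℂ := fun ω u =>
    Complex.exp (Complex.I * ((∑ a, sg p a * H ω (u a) : ℝ) : ℂ)) with hE
  have hEn : ∀ ω u, ‖E ω u‖ = 1 := fun ω u => by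
    rw [hE]
    simp only
    rw [mul_comm, Complex.norm_exp_ofReal_mul_I]
  have hEm : Measurable (Function.uncurry E) := by
    rw [hE]
    refine Complex.measurable_exp.comp (measurable_const.mul
      (Complex.measurable_ofReal.comp (Finset.measurable_sum _ fun a _ => ?_)))
    refine measurable_const.mul ?_
    exact hH.comp (measurable_fst.prodMk ((measurable_pi_apply a).comp measurable_snd))
  have hEi : Integrable (Function.uncurry E) (Pr.prod (volume.restrict U)) := by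
    refine Integrable.of_bound hEm.aestronglyMeasurable 1 (Filter.Eventually.of_forall ?_)
    rintro ⟨ω, u⟩
    exact (hEn ω u).le
  have hpt : ∀ ω : Om, ((‖∫ u in Icc (0:ℝ) 1, Complex.exp (Complex.I * ((H ω u : ℝ) : ℂ))‖ ^
      (2 * p) : ℝ) : ℂ) = ∫ u in U, E ω u := by
    intro ω
    rw [norm_pow_eq_prod _ (fun s => ∫ u in Icc (0:ℝ) 1,
      Complex.exp (Complex.I * ((s * H ω u : ℝ) : ℂ))) (by simp) ?_ p, hmeas]
    · rw [← integral_fintype_prod_eq_prod (μ := fun _ : Fin (2 * p) => ν)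
        (fun a u => Complex.exp (Complex.I * ((sg p a * H ω u : ℝ) : ℂ)))]
      congr 1
      ext u
      rw [hE]
      simp only
      rw [← Complex.exp_sum]
      congr 1
      push_cast
      rw [Finset.mul_sum]
    · rw [← integral_conj]
      congr 1
      ext u
      rw [← Complex.exp_conj]
      congr 1
      simp
  have h1 : ((∫ ω : Om, ‖∫ u in Icc (0:ℝ) 1, Complex.exp (Complex.I * ((H ω u : ℝ) : ℂ))‖ ^
      (2 * p) ∂Pr : ℝ) : ℂ) = ∫ u in U, ∫ ω : Om, E ω u ∂Pr := by
    rw [← integral_complex_ofReal]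
    simp_rw [hpt]
    exact integral_integral_swap hEi
  have h2 : ‖((∫ ω : Om, ‖∫ u in Icc (0:ℝ) 1, Complex.exp (Complex.I * ((H ω u : ℝ) : ℂ))‖ ^
      (2 * p) ∂Pr : ℝ) : ℂ)‖ ≤ ∫ u in U, ‖∫ ω : Om, E ω u ∂Pr‖ := by
    rw [h1]
    exact norm_integral_le_integral_norm _
  rw [Complex.norm_real] at h2
  exact (le_abs_self _).trans h2

end Pool.Agent.W509.WL
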